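import Mathlib
import Pool.Agent.R636.BGap8
import Pool.Agent.R756.CH.Fin
import Pool.Agent.N175.SO.CloseFin

/-!
# The gap above `1/3`: pairs with few separating elements, few copies of `2 + 1`, tame posets

An element separates two incomparable elements `x`, `y` if it is comparable to exactly one of them. There
is an absolute constant `ε > 0` such that the balance constant of a finite poset `P` is at least
`1/3 + ε` in the following cases.

* Two incomparable elements are separated by at most one element, and do not lie with this element in an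
  autonomous copy of `2 + 1`, the three-element poset with one relation.
* There are incomparable elements `x`, `y` such that all elements comparable to `y` are comparable to
  `x`, and the elements comparable to `x` and not to `y` form a chain with elements on both sides of
  `x`; or `x`, `y` have the same lower elements, and both differences of their sets of upper elements
  are nonempty chains; or dually.
* `P` is not in `𝒟` and the number of induced copies of `2 + 1` plus the number of autonomous copies is at
  most the number of incomparable pairs (for the members of `𝒟` the two numbers are equal). The proof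
  counts the separating elements of the incomparable pairs: there are two for every copy of `2 + 1`; if
  all pairs have at least two of them, then all pairs have exactly two, and the minimal elements of a
  summand give a contradiction.
* `P` is not in `𝒟` and for every two incomparable elements at most two of the four differences of the
  sets of lower elements and of the sets of upper elements are nonempty, and if these two are not the
  two which nested elements have, they are chains (`Tame`). All semiorders are in this class (for them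
  the gap is in the starting files, `MP_c890a7_co.SemiorderWidths`), and all interval orders in which no
  element is incomparable to a copy of `Y` or of its dual (`NoY`). More generally this condition is
  needed only for the pairs of incomparable elements whose numbers `|D(x)| - |U(x)|` (elements below
  minus elements above) differ by at most one, and for the pairs which meet an autonomous copy of
  `2 + 1` (`CloseTame`). The proof: in a poset with `n` elements which is not a direct sum the numbers
  `|D(x)| - |U(x)|` take at most `2 n - 3` values, so two elements have almost the same number; they are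
  incomparable, and separated by at most one element, or they have differences which are nonempty
  chains. The autonomous copies of `2 + 1` are excluded by triples of elements with the same lower
  elements.

The same holds for all posets outside `𝒟` of the closure of these classes and the earlier classes under
disjoint sums, direct sums and the passage from a member outside `𝒟` to any poset which contains it as
an autonomous subset.
-/

set_option autoImplicit false

namespace Pool.Agent.Results.MP_33fb9b_co.FewSeparators

open Pool.Agent.H13R3.WB Pool.Agent.H931R3.Bal Pool.Agent.R636.BG Pool.Agent.N175.SO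
open Pool.Agent.R756.CH

/-- The classes of finite posets of the earlier results: posets with a good pair which is not
exceptional, with three elements with the same lower elements and chains as differences, or with the
dual properties; with two elements with average heights at distance at most `1/20`, with a cycle of the
majority relation, with a nontrivial automorphism, with two anti-automorphisms, without `V + 1` or its
dual, Young diagrams, posets with a thin maximal antichain with at least three elements, posets in which
every element is incomparable to at most three elements. -/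
def Earlier (P : Type) [PartialOrder P] : Prop :=
  (∃ (_ : Fintype P) (a b : P), GoodPair P a b ∧ ¬ Exc P a b) ∨
    (∃ (_ : Fintype P) (a b : Pᵒᵈ), GoodPair Pᵒᵈ a b ∧ ¬ Exc Pᵒᵈ a b) ∨
    (∃ x y z : P, Near P x y ∧ Near P y z ∧ Near P x z) ∨
    (∃ x y z : Pᵒᵈ, Near Pᵒᵈ x y ∧ Near Pᵒᵈ y z ∧ Near Pᵒᵈ x z) ∨
    (∃ (_ : Fintype P) (x y : P), x ≠ y ∧ |avgHeight P x - avgHeight P y| ≤ 1 / 20) ∨
    (∃ (_ : Fintype P) (x : P), Relation.TransGen (fun a b : P => 1 / 2 < prob P a b) x x) ∨
    (∃ e : P ≃o P, e ≠ OrderIso.refl P) ∨ (∃ e e' : P ≃o Pᵒᵈ, e ≠ e') ∨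
    VOneFree P ∨ VOneFree Pᵒᵈ ∨ (∃ μ : YoungDiagram, Nonempty (P ≃o μ.cells)) ∨
    (∃ A : Finset P, ThinAnti P A ∧ 3 ≤ A.card) ∨
    ∀ x : P, Nat.card {y : P // ¬ x ≤ y ∧ ¬ y ≤ x} ≤ 3

/-- There is a pair of incomparable elements of one of the following kinds: it is separated by at most
one element and is not contained in an autonomous copy of `2 + 1`; or one element is comparable to all
elements comparable to the other one, and the differences of the sets of lower elements and of the sets
of upper elements are nonempty chains; or the sets of lower elements are equal and both differences of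
the sets of upper elements are nonempty chains; or dually. -/
def HasPair (P : Type) [PartialOrder P] : Prop :=
  ∃ x y : P, ¬ x ≤ y ∧ ¬ y ≤ x ∧
    (((∀ w w', Sep P w x y → Sep P w' x y → w = w') ∧ ∀ z, ¬ AutoE P x y z) ∨
      (Inner x y ∧ (Low x y).Nonempty ∧ (Upp x y).Nonempty) ∨
      (Low x y = ∅ ∧ Low y x = ∅ ∧ IsChain (· ≤ ·) (Upp x y) ∧ IsChain (· ≤ ·) (Upp y x) ∧
        (Upp x y).Nonempty ∧ (Upp y x).Nonempty) ∨
      (Upp x y = ∅ ∧ Upp y x = ∅ ∧ IsChain (· ≤ ·) (Low x y) ∧ IsChain (· ≤ ·) (Low y x) ∧
        (Low x y).Nonempty ∧ (Low y x).Nonempty))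

theorem result : ∃ ε : ℝ, 0 < ε ∧
    (∀ (P : Type) [Fintype P] [PartialOrder P], HasPair P → 1 / 3 + ε ≤ balance P) ∧
    (∀ (P : Type) [PartialOrder P],
      (Semi P → NoY P) ∧ (NoY P → Tame P) ∧ (Tame P → CloseTame P)) ∧
    ∀ (R : Type) [Fintype R] [PartialOrder R],
      Closed (fun P _ => Nonempty P ∧ (CloseTame P ∨ 2 * (copies P + autos P) ≤ incPairs P ∨
        HasPair P ∨ Earlier P)) R →
      InD R ∨ 1 / 3 + ε ≤ balance R := by
  obtain ⟨ε₁, h1, g1⟩ := cycle_gap
  obtain ⟨ε₂, h2, g2⟩ := class_gap
  obtain ⟨ε₃, h3, g3⟩ := thin_class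
  obtain ⟨ε₄, h4, g4⟩ := pair_gap
  have hanti : ∀ (P : Type) [PartialOrder P] (e e' : P ≃o Pᵒᵈ), e ≠ e' →
      ∃ f : P ≃o P, f ≠ OrderIso.refl P := by
    intro P _ e e' hne
    refine ⟨e.trans e'.symm, fun h => hne ?_⟩
    ext x
    have := congrArg (fun g : P ≃o P => e' (g x)) h
    simpa using this
  obtain ⟨ε, h0, m1, m2, m3, m4, m5⟩ : ∃ ε : ℝ, 0 < ε ∧ ε ≤ ε₁ ∧ ε ≤ ε₂ ∧ ε ≤ ε₃ ∧ ε ≤ ε₄ ∧
      ε ≤ 1 / 200 := by
    refine ⟨min (min ε₁ ε₂) (min ε₃ (min ε₄ (1 / 200))), by positivity, ?_, ?_, ?_, ?_, ?_⟩
    · exact le_trans (min_le_left _ _) (min_le_left _ _)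
    · exact le_trans (min_le_left _ _) (min_le_right _ _)
    · exact le_trans (min_le_right _ _) (min_le_left _ _)
    · exact le_trans (min_le_right _ _) (le_trans (min_le_right _ _) (min_le_left _ _))
    · exact le_trans (min_le_right _ _) (le_trans (min_le_right _ _) (min_le_right _ _))
  have good : Good ε := fun P _ _ a b hab => ((g4 P).1 a b hab).imp id (fun h => by linarith)
  have trip : Trip ε := fun P _ _ x y z a b c => by linarith [(g4 P).2.2.1 x y z a b c]
  have hpair : ∀ (P : Type) [Fintype P] [PartialOrder P], HasPair P → 1 / 3 + ε ≤ balance P := by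
    intro P _ _ h
    obtain ⟨x, y, i1, i2, ⟨h5, h6⟩ | ⟨⟨k1, k2, k3, k4⟩, ⟨p, hp⟩, ⟨q, hq⟩⟩ |
      ⟨k1, k2, k3, k4, ⟨p, hp⟩, ⟨q, hq⟩⟩ | ⟨k1, k2, k3, k4, ⟨p, hp⟩, ⟨q, hq⟩⟩⟩ := h
    · rcases one_sep good i1 i2 h5 with h7 | ⟨z, hz⟩
      · exact h7
      · exact absurd hz (h6 z)
    · exact gap_between good (fun h => i1 h.le) (empty_low.1 k1) (empty_upp.1 k2)
        (chain_upp.1 k4) (chain_low.1 k3) hq.1 hq.2 hp.1 hp.2
    · exact gap_near good (fun h => i1 h.le)
        (fun w => ⟨empty_low.1 k1 w, empty_low.1 k2 w⟩) (chain_upp.1 k3)
        (chain_upp.1 k4) hp.1 hp.2 hq.1 hq.2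
    · exact gap_near' good (fun h => i1 h.le)
        (fun w => ⟨empty_upp.1 k1 w, empty_upp.1 k2 w⟩) k3 k4 hp.1 hp.2 hq.1 hq.2
  refine ⟨ε, h0, hpair, fun P _ => ⟨fun h => h.noY, fun h => h.tame, fun h => h.close⟩, ?_⟩
  intro R _ _ hR
  refine (Closed.gap (c := 1 / 3 + ε) (by linarith) ?_ hR).2
  intro P iF iP hP
  obtain ⟨hne, hP⟩ := hP
  refine ⟨hne, ?_⟩
  have key : (∃ e : P ≃o P, e ≠ OrderIso.refl P) → InD P ∨ 1 / 3 + ε ≤ balance P := fun he =>
    Or.inr (by linarith [g1 P (Or.inr he)])
  have k2 : (VOneFree P ∨ VOneFree Pᵒᵈ ∨ (∃ μ : YoungDiagram, Nonempty (P ≃o μ.cells))) →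
      InD P ∨ 1 / 3 + ε ≤ balance P := fun h =>
    (g2 P (Built.of P ⟨hne, h⟩)).imp id (fun h => by linarith)
  have k3 : ((∃ A : Finset P, ThinAnti P A ∧ 3 ≤ A.card) ∨
        ∀ x : P, Nat.card {y : P // ¬ x ≤ y ∧ ¬ y ≤ x} ≤ 3) →
      InD P ∨ 1 / 3 + ε ≤ balance P := fun h =>
    (g3 P (Built.of P ⟨hne, h⟩)).imp id (fun h => by linarith)
  rcases hP with h | h | h | ⟨i, a, b, hab, hex⟩ | ⟨i, a, b, hab, hex⟩ | ⟨x, y, z, q1, q2, q3⟩ |
    ⟨x, y, z, q1, q2, q3⟩ | ⟨i, x, y, hxy, hh⟩ | ⟨i, x, hh⟩ | h | ⟨e, e', h⟩ | h | h | h | h | h
  · exact CloseTame.gap good trip m5 P h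
  · exact few_gap good m5 h
  · exact Or.inr (hpair P h)
  · right
    obtain rfl : i = iF := Subsingleton.elim _ _
    rcases (g4 P).1 a b hab with k | k
    · exact absurd k hex
    · linarith
  · right
    obtain rfl : i = iF := Subsingleton.elim _ _
    rcases (g4 P).2.1 a b hab with k | k
    · exact absurd k hex
    · linarith
  · right
    linarith [(g4 P).2.2.1 x y z q1 q2 q3]
  · right
    linarith [(g4 P).2.2.2 x y z q1 q2 q3]
  · right
    obtain rfl : i = iF := Subsingleton.elim _ _
    have := balance_gap hxy hh
    linarith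
  · right
    obtain rfl : i = iF := Subsingleton.elim _ _
    linarith [g1 P (Or.inl ⟨x, hh⟩)]
  · exact key h
  · exact key (hanti P e e' h)
  · exact k2 (Or.inl h)
  · exact k2 (Or.inr (Or.inl h))
  · exact k2 (Or.inr (Or.inr h))
  · exact k3 (Or.inl h)
  · exact k3 (Or.inr h)

end Pool.Agent.Results.MP_33fb9b_co.FewSeparators
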