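import Mathlib
import Pool.Agent.R636.BGap8

/-!
# Posets without a gap above `1/3` are rigid, and their majority relation is a linear order

There is an absolute constant `ε > 0` such that every finite poset `P` (of any width) with balance
constant less than `1/3 + ε` has the following properties. The majority relation
`P(x before y) > 1/2` is a linear order of the elements. The poset has no automorphism but the
identity, and at most one anti-automorphism. So the gap above `1/3` holds for all posets with a
nontrivial automorphism (Ganter, Hafner and Poguntke: balance constant at least `1/3`), and for all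
posets with two anti-automorphisms; and it holds for all posets outside `𝒟` that are built by disjoint
sums and direct sums from such posets and from the posets of the known classes (no induced `V + 1` or
its dual, Young diagrams, a thin maximal antichain, each element incomparable to at most three others).

The statement on majority cycles and automorphisms is a theorem of the library of the starting files
(`Pool.Agent.R636.BG.cycle_gap`) which was never handed in. Its proof: the probabilities on a majority
cycle with almost `2/3` on every pair are almost those of the three cyclic orders, and in a poset in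
which every element is incomparable to at most `K` others each order of three incomparable elements has
a probability bounded from below by local moves; posets with an element with more than `K` incomparable
elements are almost perfectly balanced.
-/

set_option autoImplicit false

namespace Pool.Agent.Results.MP_33fb9b_co.RigidMajorityOrder

open Pool.Agent.H13R3.WB Pool.Agent.H931R3.Bal Pool.Agent.R636.BG

theorem result : ∃ ε : ℝ, 0 < ε ∧
    (∀ (P : Type) [Fintype P] [PartialOrder P], balance P < 1 / 3 + ε →
      IsStrictTotalOrder P (fun x y => 1 / 2 < prob P x y) ∧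
      Subsingleton (P ≃o P) ∧ Subsingleton (P ≃o Pᵒᵈ)) ∧
    ∀ (R : Type) [Fintype R] [PartialOrder R],
      Built (fun P _ => Nonempty P ∧
        ((∃ e : P ≃o P, e ≠ OrderIso.refl P) ∨ (∃ e e' : P ≃o Pᵒᵈ, e ≠ e') ∨
          VOneFree P ∨ VOneFree Pᵒᵈ ∨ (∃ μ : YoungDiagram, Nonempty (P ≃o μ.cells)) ∨
          (∃ A : Finset P, ThinAnti P A ∧ 3 ≤ A.card) ∨
          ∀ x : P, Nat.card {y : P // ¬ x ≤ y ∧ ¬ y ≤ x} ≤ 3)) R →
      InD R ∨ 1 / 3 + ε ≤ balance R := by
  obtain ⟨ε₁, h1, g1⟩ := cycle_gap
  obtain ⟨ε₂, h2, g2⟩ := class_gap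
  obtain ⟨ε₃, h3, g3⟩ := thin_class
  have hpair : ∀ (P : Type) [Fintype P] [PartialOrder P] (x y : P), x ≠ y → balance P < 1 / 3 + 1 / 200 →
      1 / 2 < prob P x y ∨ 1 / 2 < prob P y x := by
    intro P _ _ x y hxy hb
    by_contra hcon
    push Not at hcon
    have hs := pb_lt_add (P := P) (n := Fintype.card P) rfl hxy
    have e1 := prob_pb (P := P) (n := Fintype.card P) rfl x y
    have e2 := prob_pb (P := P) (n := Fintype.card P) rfl y x
    have hle : min (prob P x y) (prob P y x) ≤ balance P := by
      unfold balance
      exact le_ciSup (f := fun p : P × P => min (prob P p.1 p.2) (prob P p.2 p.1))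
        (Set.finite_range _).bddAbove (x, y)
    have : (1 : ℝ) / 2 ≤ min (prob P x y) (prob P y x) := by
      apply le_min <;> linarith
    linarith
  have hanti : ∀ (P : Type) [PartialOrder P] (e e' : P ≃o Pᵒᵈ), e ≠ e' →
      ∃ f : P ≃o P, f ≠ OrderIso.refl P := by
    intro P _ e e' hne
    refine ⟨e.trans e'.symm, fun h => hne ?_⟩
    ext x
    have := congrArg (fun g : P ≃o P => e' (g x)) h
    simpa using this
  refine ⟨min (min ε₁ ε₂) (min ε₃ (1 / 200)), by positivity, ?_, ?_⟩
  · intro P _ _ hb
    have m1 : min (min ε₁ ε₂) (min ε₃ (1 / 200 : ℝ)) ≤ ε₁ := le_trans (min_le_left _ _) (min_le_left _ _)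
    have m2 : min (min ε₁ ε₂) (min ε₃ (1 / 200 : ℝ)) ≤ 1 / 200 :=
      le_trans (min_le_right _ _) (min_le_right _ _)
    have hno := g1 P
    have hc : ∀ x : P, ¬ Relation.TransGen (fun a b : P => 1 / 2 < prob P a b) x x := by
      intro x hx
      have := hno (Or.inl ⟨x, hx⟩)
      linarith
    have ha : ∀ e : P ≃o P, e = OrderIso.refl P := by
      intro e
      by_contra he
      have := hno (Or.inr ⟨e, he⟩)
      linarith
    refine ⟨?_, ?_, ?_⟩
    · have q1 : ∀ x : P, ¬ (1 / 2 < prob P x x) := fun x hx =>
        hc x (Relation.TransGen.single hx)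
      have q2 : ∀ x y z : P, 1 / 2 < prob P x y → 1 / 2 < prob P y z → 1 / 2 < prob P x z := by
        intro x y z hxy hyz
        have hxz : x ≠ z := by
          rintro rfl
          exact hc x (Relation.TransGen.tail (Relation.TransGen.single hxy) hyz)
        rcases hpair P x z hxz (by linarith) with h | h
        · exact h
        · exact (hc x (Relation.TransGen.tail (Relation.TransGen.tail
            (Relation.TransGen.single hxy) hyz) h)).elim
      have q3 : ∀ x y : P, ¬ (1 / 2 < prob P x y) → ¬ (1 / 2 < prob P y x) → x = y := by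
        intro x y hx hy
        by_contra hne
        rcases hpair P x y hne (by linarith) with h | h
        · exact hx h
        · exact hy h
      exact { irrefl := q1, trans := q2, trichotomous := q3 }
    · exact ⟨fun e e' => by rw [ha e, ha e']⟩
    · refine ⟨fun e e' => ?_⟩
      by_contra hne
      obtain ⟨f, hf⟩ := hanti P e e' hne
      exact hf (ha f)
  · intro R _ _ hR
    have m1 : min (min ε₁ ε₂) (min ε₃ (1 / 200 : ℝ)) ≤ ε₁ := le_trans (min_le_left _ _) (min_le_left _ _)
    have m2 : min (min ε₁ ε₂) (min ε₃ (1 / 200 : ℝ)) ≤ ε₂ := le_trans (min_le_left _ _) (min_le_right _ _)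
    have m3 : min (min ε₁ ε₂) (min ε₃ (1 / 200 : ℝ)) ≤ ε₃ := le_trans (min_le_right _ _) (min_le_left _ _)
    have m4 : min (min ε₁ ε₂) (min ε₃ (1 / 200 : ℝ)) ≤ 1 / 200 :=
      le_trans (min_le_right _ _) (min_le_right _ _)
    refine (Built.gap (c := 1 / 3 + min (min ε₁ ε₂) (min ε₃ (1 / 200))) (by linarith) ?_ hR).2
    intro P _ _ hP
    obtain ⟨hne, hP⟩ := hP
    refine ⟨hne, ?_⟩
    have key : (∃ e : P ≃o P, e ≠ OrderIso.refl P) →
        InD P ∨ 1 / 3 + min (min ε₁ ε₂) (min ε₃ (1 / 200)) ≤ balance P := fun he =>
      Or.inr (by linarith [g1 P (Or.inr he)])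
    have k2 : (VOneFree P ∨ VOneFree Pᵒᵈ ∨ (∃ μ : YoungDiagram, Nonempty (P ≃o μ.cells))) →
        InD P ∨ 1 / 3 + min (min ε₁ ε₂) (min ε₃ (1 / 200)) ≤ balance P := fun h =>
      (g2 P (Built.of P ⟨hne, h⟩)).imp id (fun h => by linarith)
    have k3 : ((∃ A : Finset P, ThinAnti P A ∧ 3 ≤ A.card) ∨
          ∀ x : P, Nat.card {y : P // ¬ x ≤ y ∧ ¬ y ≤ x} ≤ 3) →
        InD P ∨ 1 / 3 + min (min ε₁ ε₂) (min ε₃ (1 / 200)) ≤ balance P := fun h =>
      (g3 P (Built.of P ⟨hne, h⟩)).imp id (fun h => by linarith)
    rcases hP with h | ⟨e, e', h⟩ | h | h | h | h | h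
    · exact key h
    · exact key (hanti P e e' h)
    · exact k2 (Or.inl h)
    · exact k2 (Or.inr (Or.inl h))
    · exact k2 (Or.inr (Or.inr h))
    · exact k3 (Or.inl h)
    · exact k3 (Or.inr h)

end Pool.Agent.Results.MP_33fb9b_co.RigidMajorityOrder
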