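import Mathlib
import Pool.Agent.N175.SO.TriMix

/-!
# The gap above `1/3`: antichains with three elements and few separating elements

An element separates two incomparable elements if it is comparable to exactly one of them. There is an
absolute constant `ε > 0` such that every finite poset `P` with balance constant less than `1/3 + ε` has
the following properties.

* If `x`, `y`, `v` are pairwise incomparable and no two of them lie in an autonomous copy of `2 + 1`, then
  at least four elements separate two of the three elements.
* Let a set of antichains with three elements be given, without autonomous copies of `2 + 1` which
  contain two of the elements, such that any two elements of `P` lie in at most `μ` of them. If `N` is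
  the number of these antichains, then the number of induced copies of `2 + 1` plus the number of
  autonomous copies is at least the number of incomparable pairs plus `N / μ`.

Proof of the first part. Every pair is separated by at least two elements. The number of the separating
elements of the three pairs together is twice the number of the elements which separate two of
the three; so if it is less than eight, each pair has exactly two of them, and there is one element for
each of `x`, `y`, `v`, which separates it from the other two. It is above one element or below the two
other ones: then the element is lowered, or it is below one element or above the two others: then it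
is raised. Two of the three elements are both lowered, or both raised, and in each of the four
possible cases the two elements form a good pair of `P` or of the dual poset which is not exceptional.
For the second part the separating elements of all incomparable pairs are counted: there are two for
every copy of `2 + 1`, at least two for every pair outside of the autonomous copies, and at least two
more for the three pairs of each of the antichains.

The last part of the theorem is the gap for the posets outside `𝒟` in the closure of the classes given
by these conditions, and of two classes of `FewSeparators`, under sums and autonomous members.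
-/

set_option autoImplicit false

namespace Pool.Agent.Results.MP_33fb9b_co.ThreeAntichains

open Pool.Agent.H13R3.WB Pool.Agent.H931R3.Bal Pool.Agent.R636.BG Pool.Agent.N175.SO

theorem result : ∃ ε : ℝ, 0 < ε ∧
    (∀ (P : Type) [Fintype P] [PartialOrder P], ThreeMixed P → 1 / 3 + ε ≤ balance P) ∧
    (∀ (P : Type) [Fintype P] [PartialOrder P], ManyThree P → 1 / 3 + ε ≤ balance P) ∧
    ∀ (R : Type) [Fintype R] [PartialOrder R],
      Closed (fun P _ => Nonempty P ∧ (ThreeMixed P ∨ ManyThree P ∨ CloseTame P ∨
        2 * (copies P + autos P) ≤ incPairs P)) R →
      InD R ∨ 1 / 3 + ε ≤ balance R := by
  obtain ⟨ε₄, h4, g4⟩ := pair_gap
  obtain ⟨ε, h0, m4, m5⟩ : ∃ ε : ℝ, 0 < ε ∧ ε ≤ ε₄ ∧ ε ≤ 1 / 200 :=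
    ⟨min ε₄ (1 / 200), by positivity, min_le_left _ _, min_le_right _ _⟩
  have good : Good ε := fun P _ _ a b hab => ((g4 P).1 a b hab).imp id (fun h => by linarith)
  have trip : Trip ε := fun P _ _ x y z a b c => by linarith [(g4 P).2.2.1 x y z a b c]
  have many : ∀ (P : Type) [Fintype P] [PartialOrder P], ManyThree P → 1 / 3 + ε ≤ balance P := by
    rintro P _ _ ⟨𝒜, μ, h1, h2⟩
    exact tri_gap good 𝒜 μ h1 h2
  refine ⟨ε, h0, fun P _ _ h => mixed_gap good h, many, ?_⟩
  intro R _ _ hR
  refine (Closed.gap (c := 1 / 3 + ε) (by linarith) ?_ hR).2
  intro P _ _ hP
  obtain ⟨hne, hP⟩ := hP
  refine ⟨hne, ?_⟩
  rcases hP with h | h | h | h
  · exact Or.inr (mixed_gap good h)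
  · exact Or.inr (many P h)
  · exact CloseTame.gap good trip m5 P h
  · exact few_gap good m5 h

end Pool.Agent.Results.MP_33fb9b_co.ThreeAntichains
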